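import Mathlib

/-!
# Trees with equal domination and certified domination numbers: definitions
-/

set_option autoImplicit false

namespace Pool.Agent.K1H16.CD

/-- `D` is a dominating set of `G`: each vertex outside `D` has a neighbour in `D`. -/
def Dominating {V : Type} (G : SimpleGraph V) (D : Set V) : Prop :=
  ∀ v, v ∉ D → ∃ u ∈ D, G.Adj v u

/-- `D` is a certified dominating set of `G`: it is dominating and each vertex of `D` has either no
neighbour outside `D` or at least two. -/
def Certified {V : Type} (G : SimpleGraph V) (D : Set V) : Prop :=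
  Dominating G D ∧ ∀ v ∈ D, (G.neighborSet v \ D).ncard = 0 ∨ 2 ≤ (G.neighborSet v \ D).ncard

/-- the domination number `γ (G)` -/
noncomputable def domNum {V : Type} (G : SimpleGraph V) : ℕ :=
  sInf {k | ∃ D : Set V, Dominating G D ∧ D.ncard = k}

/-- the certified domination number `γ_cer (G)` -/
noncomputable def certNum {V : Type} (G : SimpleGraph V) : ℕ :=
  sInf {k | ∃ D : Set V, Certified G D ∧ D.ncard = k}

/-- All vertices are adjacent to `d` and there are no other edges: `G` is a star with centre `d`. -/
def IsStar {V : Type} (G : SimpleGraph V) (d : V) : Prop :=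
  ∀ a b, G.Adj a b ↔ (a = d ∧ b ≠ d) ∨ (b = d ∧ a ≠ d)

/-- `G` is obtained from the graph induced on the complement of `S` by attaching a star with vertex
set `S` and centre `d` through one new edge, which joins the vertex `x` of the star to the
vertex `y` outside `S`. -/
structure StarAttached {V : Type} (G : SimpleGraph V) (S : Set V) (d x y : V) : Prop where
  hd : d ∈ S
  hx : x ∈ S
  hy : y ∉ S
  inside : ∀ a ∈ S, ∀ b ∈ S, (G.Adj a b ↔ (a = d ∧ b ≠ d) ∨ (b = d ∧ a ≠ d))
  cross : ∀ a ∈ S, ∀ b, b ∉ S → (G.Adj a b ↔ a = x ∧ b = y)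

/-- The family of labelled trees `(G, D, P)`: `D` is the set of the black vertices, `P` the set of
the marked vertices. It is generated from the stars with at least two leaves, with black centre
and one marked vertex, by three operations. Each of them attaches a new star with black
centre `d`, white leaves and one marked vertex `p` by one edge:

* `op1`: a star with at least two leaves, whose centre is joined to a black unmarked vertex `y`;
  a leaf is marked;
* `op2`: a star with at least one leaf, whose centre is joined to a white unmarked vertex `y`; a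
  leaf is marked, or the centre is marked and no neighbour of `y` in the old tree is marked;
* `op3`: a star with at least two leaves, whose leaf `x` is joined to a white vertex `y`; a leaf
  other than `x` is marked, or the centre is marked and `y` is not marked, or `x` is marked and
  neither `y` nor a neighbour of `y` in the old tree is marked. -/
inductive Fam : ∀ (V : Type), SimpleGraph V → Set V → Set V → Prop
  | star {V : Type} (G : SimpleGraph V) (d p : V) (hG : IsStar G d) (hc : 3 ≤ Nat.card V) :
      Fam V G {d} {p}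
  | op1 {V : Type} (G : SimpleGraph V) (D P S : Set V) (d p y : V)
      (hold : Fam ↥Sᶜ (G.induce Sᶜ) (Subtype.val ⁻¹' D) (Subtype.val ⁻¹' P))
      (hS : StarAttached G S d d y) (hc : 3 ≤ S.ncard) (hD : D ∩ S = {d}) (hP : P ∩ S = {p})
      (hyD : y ∈ D) (hyP : y ∉ P) (hp : p ≠ d) : Fam V G D P
  | op2 {V : Type} (G : SimpleGraph V) (D P S : Set V) (d p y : V)
      (hold : Fam ↥Sᶜ (G.induce Sᶜ) (Subtype.val ⁻¹' D) (Subtype.val ⁻¹' P))
      (hS : StarAttached G S d d y) (hc : 2 ≤ S.ncard) (hD : D ∩ S = {d}) (hP : P ∩ S = {p})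
      (hyD : y ∉ D) (hyP : y ∉ P) (hp : p ≠ d ∨ ∀ u, u ∉ S → G.Adj u y → u ∉ P) : Fam V G D P
  | op3 {V : Type} (G : SimpleGraph V) (D P S : Set V) (d p x y : V)
      (hold : Fam ↥Sᶜ (G.induce Sᶜ) (Subtype.val ⁻¹' D) (Subtype.val ⁻¹' P))
      (hS : StarAttached G S d x y) (hx : x ≠ d) (hc : 3 ≤ S.ncard) (hD : D ∩ S = {d})
      (hP : P ∩ S = {p}) (hyD : y ∉ D)
      (hp : (p ≠ d ∧ p ≠ x) ∨ (p = d ∧ y ∉ P) ∨
        (p = x ∧ y ∉ P ∧ ∀ u, u ∉ S → G.Adj u y → u ∉ P)) : Fam V G D P

/-- Static description of the labels: every white vertex has a black neighbour, every black vertex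
has at least two white neighbours, no closed neighbourhood contains two marked vertices, the
closed neighbourhood of a marked vertex contains only one black vertex, and the closed
neighbourhood of a black vertex contains a marked vertex. -/
structure Valid {V : Type} (G : SimpleGraph V) (D P : Set V) : Prop where
  dom : Dominating G D
  out : ∀ d ∈ D, ∃ a b, a ≠ b ∧ a ∉ D ∧ b ∉ D ∧ G.Adj d a ∧ G.Adj d b
  pack : ∀ v, ∀ p ∈ P, ∀ q ∈ P, (p = v ∨ G.Adj v p) → (q = v ∨ G.Adj v q) → p = q
  priv : ∀ p ∈ P, ∀ d ∈ D, ∀ e ∈ D, (d = p ∨ G.Adj p d) → (e = p ∨ G.Adj p e) → d = e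
  mark : ∀ d ∈ D, ∃ p ∈ P, p = d ∨ G.Adj d p

/-- A root `r` with a parent function and a depth function. -/
structure Rooted {V : Type} (G : SimpleGraph V) (r : V) (par : V → V) (dep : V → ℕ) : Prop where
  up : ∀ v, v ≠ r → G.Adj v (par v) ∧ dep v = dep (par v) + 1
  edge : ∀ u v, G.Adj u v → (u ≠ r ∧ par u = v) ∨ (v ≠ r ∧ par v = u)

end Pool.Agent.K1H16.CD
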