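import Pool.Agent.K1H16.CD.Root

set_option autoImplicit false

namespace Pool.Agent.K1H16.CD

open SimpleGraph

variable {V : Type} {G : SimpleGraph V}

theorem mem_of_inter {D S : Set V} {d a : V} (h : D ∩ S = {d}) (ha : a ∈ D) (hs : a ∈ S) : a = d := by
  have : a ∈ D ∩ S := ⟨ha, hs⟩
  rw [h] at this
  exact this

theorem inter_mem {D S : Set V} {d : V} (h : D ∩ S = {d}) : d ∈ D ∧ d ∈ S := by
  have : d ∈ D ∩ S := by rw [h]; rfl
  exact this

/-- The general extension step. -/
theorem extend {D P S : Set V} {d p x y : V} (hS : StarAttached G S d x y)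
    (hold : Valid (G.induce Sᶜ) (Subtype.val ⁻¹' D) (Subtype.val ⁻¹' P))
    (hD : D ∩ S = {d}) (hP : P ∩ S = {p})
    (hout : ∃ a b, a ≠ b ∧ a ∉ D ∧ b ∉ D ∧ G.Adj d a ∧ G.Adj d b)
    (h1 : p = x → y ∉ D ∧ y ∉ P ∧ ∀ u, u ∉ S → G.Adj u y → u ∉ P)
    (h2 : y ∈ P → x ≠ d ∧ p ≠ x ∧ p ≠ d) : Valid G D P := by
  obtain ⟨hdD, hdS⟩ := inter_mem hD
  obtain ⟨hpP, hpS⟩ := inter_mem hP
  have cross' : ∀ a, a ∉ S → ∀ b ∈ S, G.Adj a b → b = x ∧ a = y := by
    intro a ha b hb hab
    exact (hS.cross b hb a ha).1 hab.symm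
  have cross : ∀ a ∈ S, ∀ b, b ∉ S → G.Adj a b → a = x ∧ b = y := by
    intro a ha b hb hab
    exact (hS.cross a ha b hb).1 hab
  have star_adj : ∀ a ∈ S, a ≠ d → G.Adj a d := fun a ha had =>
    (hS.inside a ha d hdS).2 (Or.inr ⟨rfl, had⟩)
  -- pack at a vertex outside S, with both marked vertices outside
  have pack0 : ∀ v, v ∉ S → ∀ p' ∈ P, ∀ q' ∈ P, p' ∉ S → q' ∉ S → (p' = v ∨ G.Adj v p') →
      (q' = v ∨ G.Adj v q') → p' = q' := by
    intro v hv p' hp' q' hq' hp's hq's h3 h4
    have := hold.pack ⟨v, hv⟩ ⟨p', hp's⟩ hp' ⟨q', hq's⟩ hq' (by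
      rcases h3 with h3 | h3
      · exact Or.inl (Subtype.ext h3)
      · exact Or.inr h3) (by
      rcases h4 with h4 | h4
      · exact Or.inl (Subtype.ext h4)
      · exact Or.inr h4)
    exact congrArg Subtype.val this
  refine ⟨?_, ?_, ?_, ?_, ?_⟩
  · intro v hv
    by_cases hvS : v ∈ S
    · have hvd : v ≠ d := by rintro rfl; exact hv hdD
      exact ⟨d, hdD, star_adj v hvS hvd⟩
    · obtain ⟨u, hu, huv⟩ := hold.dom ⟨v, hvS⟩ hv
      exact ⟨u, hu, huv⟩
  · intro e he
    by_cases heS : e ∈ S
    · have := mem_of_inter hD he heS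
      subst this
      exact hout
    · obtain ⟨a, b, hab, ha, hb, h3, h4⟩ := hold.out ⟨e, heS⟩ he
      exact ⟨a, b, fun h => hab (Subtype.ext h), ha, hb, h3, h4⟩
  · -- pack
    -- one marked vertex in S, the other outside: impossible in a common closed neighbourhood
    have mixed : ∀ v, ∀ q ∈ P, q ∉ S → (p = v ∨ G.Adj v p) → (q = v ∨ G.Adj v q) → False := by
      intro v q hq hqS h3 h4
      by_cases hvS : v ∈ S
      · rcases h4 with h4 | h4
        · subst h4; exact hqS hvS
        · obtain ⟨rfl, rfl⟩ := cross v hvS q hqS h4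
          obtain ⟨hxd, hpx, hpd⟩ := h2 hq
          rcases h3 with h3 | h3
          · exact hpx h3
          · rcases (hS.inside v hS.hx p hpS).1 h3 with h5 | h5
            · exact hxd h5.1
            · exact hpd h5.1
      · rcases h3 with h3 | h3
        · subst h3; exact hvS hpS
        · obtain ⟨hpx, rfl⟩ := cross' v hvS p hpS h3
          obtain ⟨-, h5, h6⟩ := h1 hpx
          rcases h4 with h4 | h4
          · subst h4; exact h5 hq
          · exact h6 q hqS h4.symm hq
    intro v p' hp' q' hq' h3 h4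
    by_cases hp's : p' ∈ S
    · have e1 := mem_of_inter hP hp' hp's
      subst e1
      by_cases hq's : q' ∈ S
      · exact (mem_of_inter hP hq' hq's).symm
      · exact (mixed v q' hq' hq's h3 h4).elim
    · by_cases hq's : q' ∈ S
      · have e1 := mem_of_inter hP hq' hq's
        subst e1
        exact (mixed v p' hp' hp's h4 h3).elim
      · by_cases hvS : v ∈ S
        · rcases h3 with h3 | h3
          · subst h3; exact (hp's hvS).elim
          · rcases h4 with h4 | h4
            · subst h4; exact (hq's hvS).elim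
            · exact ((cross v hvS p' hp's h3).2).trans ((cross v hvS q' hq's h4).2).symm
        · exact pack0 v hvS p' hp' q' hq' hp's hq's h3 h4
  · -- priv
    intro p' hp' e he f hf h3 h4
    by_cases hp's : p' ∈ S
    · have e1 := mem_of_inter hP hp' hp's
      subst e1
      have key : ∀ g ∈ D, (g = p' ∨ G.Adj p' g) → g = d := by
        intro g hg h5
        by_cases hgS : g ∈ S
        · exact mem_of_inter hD hg hgS
        · exfalso
          rcases h5 with h5 | h5
          · subst h5; exact hgS hp's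
          · obtain ⟨hpx, rfl⟩ := cross p' hp's g hgS h5
            exact (h1 hpx).1 hg
      exact (key e he h3).trans (key f hf h4).symm
    · have key : ∀ g ∈ D, (g = p' ∨ G.Adj p' g) → g ∉ S := by
        intro g hg h5 hgS
        rcases h5 with h5 | h5
        · subst h5; exact hp's hgS
        · have hgd := mem_of_inter hD hg hgS
          obtain ⟨hgx, rfl⟩ := cross' p' hp's g hgS h5
          exact (h2 hp').1 (hgx.symm.trans hgd)
      have heS := key e he h3
      have hfS := key f hf h4
      have := hold.priv ⟨p', hp's⟩ hp' ⟨e, heS⟩ he ⟨f, hfS⟩ hf (by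
        rcases h3 with h3 | h3
        · exact Or.inl (Subtype.ext h3)
        · exact Or.inr h3) (by
        rcases h4 with h4 | h4
        · exact Or.inl (Subtype.ext h4)
        · exact Or.inr h4)
      exact congrArg Subtype.val this
  · -- mark
    intro e he
    by_cases heS : e ∈ S
    · have := mem_of_inter hD he heS
      subst this
      refine ⟨p, hpP, ?_⟩
      by_cases hpe : p = e
      · exact Or.inl hpe
      · exact Or.inr (star_adj p hpS hpe).symm
    · obtain ⟨q, hq, h3⟩ := hold.mark ⟨e, heS⟩ he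
      refine ⟨q, hq, ?_⟩
      rcases h3 with h3 | h3
      · exact Or.inl (congrArg Subtype.val h3)
      · exact Or.inr h3

/-- two leaves of an attached star -/
theorem two_leaves {D S : Set V} {d x y : V} (hS : StarAttached G S d x y)
    (hc : 3 ≤ S.ncard) (hD : D ∩ S = {d}) :
    ∃ a b, a ≠ b ∧ a ∉ D ∧ b ∉ D ∧ G.Adj d a ∧ G.Adj d b := by
  classical
  have hfin : S.Finite := Set.finite_of_ncard_pos (by omega)
  have h1 : 2 ≤ (S \ {d}).ncard := by
    rw [Set.ncard_sdiff_singleton_of_mem hS.hd]
    omega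
  obtain ⟨a, b, ha, hb, hab⟩ := (Set.one_lt_ncard_iff (hfin.sdiff)).1 (by omega : 1 < (S \ {d}).ncard)
  have key : ∀ a ∈ S \ {d}, a ∉ D ∧ G.Adj d a := by
    intro a ha
    refine ⟨fun h => ha.2 (mem_of_inter hD h ha.1), ?_⟩
    exact (hS.inside d hS.hd a ha.1).2 (Or.inl ⟨rfl, ha.2⟩)
  exact ⟨a, b, hab, (key a ha).1, (key b hb).1, (key a ha).2, (key b hb).2⟩

theorem one_leaf {D S : Set V} {d y : V} (hS : StarAttached G S d d y)
    (hc : 2 ≤ S.ncard) (hD : D ∩ S = {d}) (hy : y ∉ D) :
    ∃ a b, a ≠ b ∧ a ∉ D ∧ b ∉ D ∧ G.Adj d a ∧ G.Adj d b := by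
  classical
  have hfin : S.Finite := Set.finite_of_ncard_pos (by omega)
  have h1 : 0 < (S \ {d}).ncard := by
    rw [Set.ncard_sdiff_singleton_of_mem hS.hd]
    omega
  obtain ⟨a, ha⟩ := (Set.ncard_pos (hfin.sdiff)).1 h1
  refine ⟨a, y, ?_, fun h => ha.2 (mem_of_inter hD h ha.1), hy, ?_, ?_⟩
  · rintro rfl
    exact hS.hy ha.1
  · exact (hS.inside d hS.hd a ha.1).2 (Or.inl ⟨rfl, ha.2⟩)
  · exact (hS.cross d hS.hd y hS.hy).2 ⟨rfl, rfl⟩

/-- a labelled star is valid -/
theorem valid_star {d p : V} (hG : IsStar G d) (hc : 3 ≤ Nat.card V) : Valid G {d} {p} := by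
  classical
  refine ⟨?_, ?_, ?_, ?_, ?_⟩
  · intro v hv
    exact ⟨d, rfl, (hG v d).2 (Or.inr ⟨rfl, hv⟩)⟩
  · rintro e rfl
    have : Finite V := Nat.finite_of_card_ne_zero (by omega)
    have h1 : 2 ≤ (Set.univ \ {e} : Set V).ncard := by
      rw [Set.ncard_sdiff_singleton_of_mem (Set.mem_univ e), Set.ncard_univ]
      omega
    obtain ⟨a, b, ha, hb, hab⟩ :=
      (Set.one_lt_ncard_iff (Set.toFinite _)).1 (by omega : 1 < (Set.univ \ {e} : Set V).ncard)
    exact ⟨a, b, hab, ha.2, hb.2, (hG e a).2 (Or.inl ⟨rfl, ha.2⟩), (hG e b).2 (Or.inl ⟨rfl, hb.2⟩)⟩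
  · rintro v p' rfl q' rfl - -
    rfl
  · rintro p' rfl e rfl f rfl - -
    rfl
  · rintro e rfl
    refine ⟨p, rfl, ?_⟩
    by_cases h : p = e
    · exact Or.inl h
    · exact Or.inr ((hG e p).2 (Or.inl ⟨rfl, h⟩))

/-- Members of the family are validly labelled. -/
theorem Fam.valid {V : Type} {G : SimpleGraph V} {D P : Set V} (h : Fam V G D P) : Valid G D P := by
  induction h with
  | star G d p hG hc => exact valid_star hG hc
  | op1 G D P S d p y hold hS hc hD hP hyD hyP hp ih =>
    exact extend hS ih hD hP (two_leaves hS hc hD) (fun h => (hp h).elim) (fun h => (hyP h).elim)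
  | op2 G D P S d p y hold hS hc hD hP hyD hyP hp ih =>
    refine extend hS ih hD hP (one_leaf hS hc hD hyD) (fun h => ?_) (fun h => (hyP h).elim)
    rcases hp with hp | hp
    · exact (hp h).elim
    · exact ⟨hyD, hyP, hp⟩
  | op3 G D P S d p x y hold hS hx hc hD hP hyD hp ih =>
    refine extend hS ih hD hP (two_leaves hS hc hD) (fun h => ?_) (fun h => ⟨hx, ?_⟩)
    · rcases hp with hp | hp | hp
      · exact (hp.2 h).elim
      · exact (hx (h.symm.trans hp.1)).elim
      · exact ⟨hyD, hp.2⟩
    · rcases hp with hp | hp | hp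
      · exact ⟨hp.2, hp.1⟩
      · exact (hp.2 h).elim
      · exact (hp.2.1 h).elim

/-- Members of the family are finite trees. -/
theorem Fam.rooted {V : Type} {G : SimpleGraph V} {D P : Set V} (h : Fam V G D P) :
    Finite V ∧ ∃ r par dep, Rooted G r par dep := by
  classical
  have step : ∀ {V : Type} {G : SimpleGraph V} {S : Set V} {d x y : V},
      StarAttached G S d x y → 2 ≤ S.ncard →
      (Finite ↥Sᶜ ∧ ∃ r par dep, Rooted (G.induce Sᶜ) r par dep) →
      Finite V ∧ ∃ r par dep, Rooted G r par dep := by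
    intro V G S d x y hS hc ⟨hfin, r, par, dep, hR⟩
    have hSfin : S.Finite := Set.finite_of_ncard_pos (by omega)
    have hScfin : (Sᶜ : Set V).Finite := Set.toFinite _
    have hV : Finite V := by
      have : (Set.univ : Set V).Finite := by
        rw [← Set.union_compl_self S]
        exact hSfin.union hScfin
      exact Set.finite_univ_iff.1 this
    refine ⟨hV, r.1, fun v => if hv : v ∈ S then (if v = x then y else if v = d then x else d)
      else (par ⟨v, hv⟩).1, fun v => if hv : v ∈ S then
        (if v = x then dep ⟨y, hS.hy⟩ + 1 else if v = d then dep ⟨y, hS.hy⟩ + 2 else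
          (if d = x then dep ⟨y, hS.hy⟩ + 2 else dep ⟨y, hS.hy⟩ + 3))
      else dep ⟨v, hv⟩, ?_, ?_⟩
    · intro v hv
      by_cases hvS : v ∈ S
      · simp only [dif_pos hvS]
        by_cases hvx : v = x
        · subst hvx
          simp only [if_true, dif_neg hS.hy]
          exact ⟨(hS.cross v hS.hx y hS.hy).2 ⟨rfl, rfl⟩, trivial⟩
        · simp only [if_neg hvx]
          by_cases hvd : v = d
          · subst hvd
            simp only [if_true, dif_pos hS.hx]
            refine ⟨(hS.inside v hS.hd x hS.hx).2 (Or.inl ⟨rfl, fun h => hvx h.symm⟩), ?_⟩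
            trivial
          · simp only [if_neg hvd, dif_pos hS.hd]
            refine ⟨(hS.inside v hvS d hS.hd).2 (Or.inr ⟨rfl, hvd⟩), ?_⟩
            by_cases hdx : d = x
            · simp [hdx]
            · simp [hdx]
      · simp only [dif_neg hvS]
        have hvr : (⟨v, hvS⟩ : ↥Sᶜ) ≠ r := fun h => hv (congrArg Subtype.val h)
        obtain ⟨h1, h2⟩ := hR.up ⟨v, hvS⟩ hvr
        refine ⟨h1, ?_⟩
        rw [dif_neg (par ⟨v, hvS⟩).2]
        exact h2
    · intro u v huv
      by_cases huS : u ∈ S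
      · have hur : u ≠ r.1 := by rintro rfl; exact r.2 huS
        by_cases hvS : v ∈ S
        · have hvr : v ≠ r.1 := by rintro rfl; exact r.2 hvS
          simp only [dif_pos huS, dif_pos hvS]
          rcases (hS.inside u huS v hvS).1 huv with ⟨rfl, h2⟩ | ⟨rfl, h2⟩
          · by_cases hvx : v = x
            · subst hvx
              left
              refine ⟨hur, ?_⟩
              rw [if_neg (fun h => h2 h.symm), if_pos rfl]
            · right
              refine ⟨hvr, ?_⟩
              rw [if_neg hvx, if_neg h2]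
          · by_cases hux : u = x
            · subst hux
              right
              refine ⟨hvr, ?_⟩
              rw [if_neg (fun h => h2 h.symm), if_pos rfl]
            · left
              refine ⟨hur, ?_⟩
              rw [if_neg hux, if_neg h2]
        · obtain ⟨rfl, rfl⟩ := (hS.cross u huS v hvS).1 huv
          left
          refine ⟨hur, ?_⟩
          simp only [dif_pos huS, if_true]
      · by_cases hvS : v ∈ S
        · have hvr : v ≠ r.1 := by rintro rfl; exact r.2 hvS
          obtain ⟨rfl, rfl⟩ := (hS.cross v hvS u huS).1 huv.symm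
          right
          refine ⟨hvr, ?_⟩
          simp only [dif_pos hvS, if_true]
        · rcases hR.edge ⟨u, huS⟩ ⟨v, hvS⟩ huv with h1 | h1
          · left
            refine ⟨fun h => h1.1 (Subtype.ext h), ?_⟩
            simp only [dif_neg huS]
            exact congrArg Subtype.val h1.2
          · right
            refine ⟨fun h => h1.1 (Subtype.ext h), ?_⟩
            simp only [dif_neg hvS]
            exact congrArg Subtype.val h1.2
  induction h with
  | star G d p hG hc =>
    refine ⟨Nat.finite_of_card_ne_zero (by omega), d, fun _ => d, fun v => if v = d then 0 else 1, ?_, ?_⟩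
    · intro v hv
      refine ⟨(hG v d).2 (Or.inr ⟨rfl, hv⟩), ?_⟩
      simp [hv]
    · intro u v huv
      rcases (hG u v).1 huv with ⟨rfl, h2⟩ | ⟨rfl, h2⟩
      · exact Or.inr ⟨h2, rfl⟩
      · exact Or.inl ⟨h2, rfl⟩
  | op1 G D P S d p y hold hS hc hD hP hyD hyP hp ih => exact step hS (by omega) ih
  | op2 G D P S d p y hold hS hc hD hP hyD hyP hp ih => exact step hS (by omega) ih
  | op3 G D P S d p x y hold hS hx hc hD hP hyD hp ih => exact step hS (by omega) ih

end Pool.Agent.K1H16.CD
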