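import Pool.Agent.K1H16.CD.Peel

set_option autoImplicit false

namespace Pool.Agent.K1H16.CD

open SimpleGraph

variable {V : Type} {G : SimpleGraph V}

/-- Meir and Moon: in a rooted finite graph a set is dominated by at most as many vertices as there
are in some packing contained in it. -/
theorem packing {r : V} {par : V → V} {dep : V → ℕ} (hR : Rooted G r par dep) : ∀ n,
    ∀ A : Finset V, A.card ≤ n → ∃ D P : Finset V, D.card ≤ P.card ∧
      (∀ a ∈ A, ∃ d ∈ D, a = d ∨ G.Adj a d) ∧ P ⊆ A ∧
      (∀ v, ∀ p ∈ P, ∀ q ∈ P, (p = v ∨ G.Adj v p) → (q = v ∨ G.Adj v q) → p = q) := by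
  classical
  intro n
  induction n with
  | zero =>
    intro A hA
    have : A = ∅ := Finset.card_eq_zero.1 (by omega)
    subst this
    exact ⟨∅, ∅, le_rfl, by simp, by simp, by simp⟩
  | succ n ih =>
    intro A hA
    by_cases hne : A.Nonempty
    · obtain ⟨v, hv, hmax⟩ := Finset.exists_max_image A dep hne
      set u := if v = r then r else par v with hu
      have huv : v = u ∨ G.Adj v u := by
        by_cases hvr : v = r
        · left; rw [hu, if_pos hvr]; exact hvr
        · right; rw [hu, if_neg hvr]; exact (hR.up v hvr).1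
      set A' := A.filter (fun w => ¬ (w = u ∨ G.Adj w u)) with hA'
      have hcard : A'.card < A.card := by
        apply Finset.card_lt_card
        rw [Finset.filter_ssubset]
        exact ⟨v, hv, fun h => h huv⟩
      obtain ⟨D, P, h1, h2, h3, h4⟩ := ih A' (by omega)
      have hvP : v ∉ P := by
        intro h
        have := Finset.mem_filter.1 (h3 h)
        exact this.2 huv
      have key : ∀ w, ∀ q ∈ P, (v = w ∨ G.Adj w v) → (q = w ∨ G.Adj w q) → False := by
        intro w q hq h5 h6
        obtain ⟨hqA, hqu⟩ := Finset.mem_filter.1 (h3 hq)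
        push Not at hqu
        have hqdep := hmax q hqA
        -- q is not a descendant of v
        have desc : ∀ z, z ≠ r → par z = v → z = w ∨ True → (q = z ∨ G.Adj z q) → False := by
          intro z hz hzv _ h7
          have h8 := (hR.up z hz).2
          rw [hzv] at h8
          rcases h7 with rfl | h7
          · omega
          · rcases hR.edge z q h7 with h9 | h9
            · have : q = v := h9.2.symm.trans hzv
              rw [this] at hqu
              rcases huv with h10 | h10
              · exact hqu.1 h10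
              · exact hqu.2 h10
            · have h10 := (hR.up q h9.1).2
              rw [h9.2] at h10
              omega
        rcases h5 with rfl | h5
        · -- w = v
          rcases h6 with rfl | h6
          · rcases huv with h10 | h10
            · exact hqu.1 h10
            · exact hqu.2 h10
          · rcases hR.edge v q h6 with h9 | h9
            · have : q = u := by rw [hu, if_neg h9.1]; exact h9.2.symm
              exact hqu.1 this
            · have h10 := (hR.up q h9.1).2
              rw [h9.2] at h10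
              omega
        · rcases hR.edge w v h5 with h9 | h9
          · exact desc w h9.1 h9.2 (Or.inr trivial) h6
          · -- w = par v = u
            have hwu : w = u := by rw [hu, if_neg h9.1]; exact h9.2.symm
            rw [hwu] at h6
            rcases h6 with h6 | h6
            · exact hqu.1 h6
            · exact hqu.2 h6.symm
      refine ⟨insert u D, insert v P, ?_, ?_, ?_, ?_⟩
      · rw [Finset.card_insert_of_notMem hvP]
        exact (Finset.card_insert_le _ _).trans (by omega)
      · intro a ha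
        by_cases h5 : a = u ∨ G.Adj a u
        · exact ⟨u, Finset.mem_insert_self _ _, h5⟩
        · obtain ⟨d, hd, h6⟩ := h2 a (Finset.mem_filter.2 ⟨ha, h5⟩)
          exact ⟨d, Finset.mem_insert_of_mem hd, h6⟩
      · intro w hw
        rcases Finset.mem_insert.1 hw with rfl | hw
        · exact hv
        · exact (Finset.mem_filter.1 (h3 hw)).1
      · intro w p hp q hq h5 h6
        rcases Finset.mem_insert.1 hp with hpv | hp'
        · rcases Finset.mem_insert.1 hq with hqv | hq'
          · rw [hpv, hqv]
          · rw [hpv] at h5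
            exact (key w q hq' h5 h6).elim
        · rcases Finset.mem_insert.1 hq with hqv | hq'
          · rw [hqv] at h6
            exact (key w p hp' h6 h5).elim
          · exact h4 w p hp' q hq' h5 h6
    · rw [Finset.not_nonempty_iff_eq_empty] at hne
      subst hne
      exact ⟨∅, ∅, le_rfl, by simp, by simp, by simp⟩

theorem dominating_univ : Dominating G Set.univ := fun v hv => (hv (Set.mem_univ v)).elim

theorem certified_univ : Certified G Set.univ := by
  refine ⟨dominating_univ, fun v _ => Or.inl ?_⟩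
  simp

theorem domNum_le {D : Set V} (hD : Dominating G D) : domNum G ≤ D.ncard :=
  Nat.sInf_le ⟨D, hD, rfl⟩

theorem certNum_le {D : Set V} (hD : Certified G D) : certNum G ≤ D.ncard :=
  Nat.sInf_le ⟨D, hD, rfl⟩

theorem exists_dom (G : SimpleGraph V) : ∃ D : Set V, Dominating G D ∧ D.ncard = domNum G :=
  Nat.sInf_mem (s := {k | ∃ D : Set V, Dominating G D ∧ D.ncard = k})
    ⟨_, Set.univ, dominating_univ, rfl⟩

theorem exists_cert (G : SimpleGraph V) : ∃ D : Set V, Certified G D ∧ D.ncard = certNum G :=
  Nat.sInf_mem (s := {k | ∃ D : Set V, Certified G D ∧ D.ncard = k})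
    ⟨_, Set.univ, certified_univ, rfl⟩

theorem domNum_le_certNum (G : SimpleGraph V) : domNum G ≤ certNum G := by
  obtain ⟨D, hD, hc⟩ := exists_cert G
  rw [← hc]
  exact domNum_le hD.1

/-- a packing is not larger than a dominating set -/
theorem pack_le [Finite V] {P D : Set V}
    (hP : ∀ v, ∀ p ∈ P, ∀ q ∈ P, (p = v ∨ G.Adj v p) → (q = v ∨ G.Adj v q) → p = q)
    (hD : Dominating G D) : P.ncard ≤ D.ncard := by
  classical
  have h1 : ∀ p, ∃ d, d ∈ D ∧ (p = d ∨ G.Adj d p) := by
    intro p
    by_cases hp : p ∈ D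
    · exact ⟨p, hp, Or.inl rfl⟩
    · obtain ⟨d, hd, h⟩ := hD p hp
      exact ⟨d, hd, Or.inr h.symm⟩
  choose f hf hf' using h1
  refine Set.ncard_le_ncard_of_injOn f (fun p _ => hf p) ?_ (Set.toFinite _)
  intro p hp q hq hpq
  refine hP (f p) p hp q hq (hf' p) ?_
  rw [hpq]
  exact hf' q

/-- valid labels: `D` is a minimum dominating set and `P` a maximum packing -/
theorem Valid.card [Finite V] {D P : Set V} (h : Valid G D P) :
    Certified G D ∧ D.ncard = domNum G ∧ P.ncard = domNum G := by
  classical
  have h1 : D.ncard ≤ P.ncard := by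
    choose! f hf hf' using h.mark
    refine Set.ncard_le_ncard_of_injOn f (fun d hd => hf d hd) ?_ (Set.toFinite _)
    intro d hd e he hde
    refine h.priv (f d) (hf d hd) d hd e he ?_ ?_
    · rcases hf' d hd with h1 | h1
      · exact Or.inl h1.symm
      · exact Or.inr h1.symm
    · rw [hde]
      rcases hf' e he with h1 | h1
      · exact Or.inl h1.symm
      · exact Or.inr h1.symm
  obtain ⟨D₀, hD₀, hc⟩ := exists_dom G
  have h2 := pack_le h.pack hD₀
  have h3 := domNum_le h.dom
  refine ⟨⟨h.dom, fun v hv => Or.inr ?_⟩, by omega, by omega⟩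
  obtain ⟨a, b, hab, ha, hb, h4, h5⟩ := h.out v hv
  have hsub : ({a, b} : Set V) ⊆ G.neighborSet v \ D := by
    rintro w (rfl | rfl)
    · exact ⟨h4, ha⟩
    · exact ⟨h5, hb⟩
  rw [← Set.ncard_pair hab]
  exact Set.ncard_le_ncard hsub (Set.toFinite _)

theorem Valid.eq [Finite V] {D P : Set V} (h : Valid G D P) : certNum G = domNum G := by
  obtain ⟨h1, h2, -⟩ := h.card
  have h3 := certNum_le h1
  have h4 := domNum_le_certNum G
  omega

/-- A tree with at least two vertices and equal numbers has valid labels. -/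
theorem exists_valid [Finite V] (hG : G.IsTree) (hc : Nat.card V ≠ 1)
    (heq : certNum G = domNum G) : ∃ D P : Set V, Valid G D P := by
  classical
  have hne : Nonempty V := hG.connected.nonempty
  have hnt : Nontrivial V := by
    have : 1 < Nat.card V := by
      have := Nat.card_pos (α := V)
      omega
    exact Finite.one_lt_card_iff_nontrivial.1 this
  obtain ⟨D, hD, hDc⟩ := exists_cert G
  rw [heq] at hDc
  -- two white neighbours
  have hout : ∀ d ∈ D, ∃ a b, a ≠ b ∧ a ∉ D ∧ b ∉ D ∧ G.Adj d a ∧ G.Adj d b := by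
    intro d hd
    rcases hD.2 d hd with h0 | h2
    · exfalso
      rw [Set.ncard_eq_zero (Set.toFinite _)] at h0
      have hsub : ∀ w, G.Adj d w → w ∈ D := by
        intro w hw
        by_contra hwD
        have : w ∈ G.neighborSet d \ D := ⟨hw, hwD⟩
        rw [h0] at this
        exact this
      obtain ⟨w, hw⟩ := hG.connected.preconnected.exists_adj_of_nontrivial d
      have hdom : Dominating G (D \ {d}) := by
        intro v hv
        by_cases hvd : v = d
        · subst hvd
          exact ⟨w, ⟨hsub w hw, hw.ne'⟩, hw⟩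
        · have hvD : v ∉ D := fun h => hv ⟨h, hvd⟩
          obtain ⟨u, hu, hvu⟩ := hD.1 v hvD
          refine ⟨u, ⟨hu, ?_⟩, hvu⟩
          rintro rfl
          exact hvD (hsub v hvu.symm)
      have h3 := domNum_le hdom
      rw [Set.ncard_sdiff_singleton_of_mem hd] at h3
      have h4 : 0 < D.ncard := (Set.ncard_pos (Set.toFinite _)).2 ⟨d, hd⟩
      omega
    · obtain ⟨a, b, ha, hb, hab⟩ :=
        (Set.one_lt_ncard_iff (Set.toFinite _)).1 (by omega : 1 < (G.neighborSet d \ D).ncard)
      exact ⟨a, b, hab, ha.2, hb.2, ha.1, hb.1⟩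
  obtain ⟨r⟩ := hne
  obtain ⟨par, dep, hR⟩ := exists_rooted hG r
  have : Fintype V := Fintype.ofFinite V
  obtain ⟨D₁, P, h1, h2, -, h4⟩ := packing hR _ Finset.univ le_rfl
  have hD₁ : Dominating G (D₁ : Set V) := by
    intro v hv
    obtain ⟨d, hd, h5⟩ := h2 v (Finset.mem_univ v)
    rcases h5 with rfl | h5
    · exact (hv hd).elim
    · exact ⟨d, hd, h5⟩
  have h5 := domNum_le hD₁
  rw [Set.ncard_coe_finset] at h5
  have hpack : ∀ v, ∀ p ∈ (P : Set V), ∀ q ∈ (P : Set V), (p = v ∨ G.Adj v p) →
      (q = v ∨ G.Adj v q) → p = q := h4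
  have h6 := pack_le hpack hD.1
  rw [Set.ncard_coe_finset] at h6
  have hcard : P.card = D.ncard := by omega
  -- the bijection
  have h7 : ∀ p, ∃ d, d ∈ D ∧ (p = d ∨ G.Adj d p) := by
    intro p
    by_cases hp : p ∈ D
    · exact ⟨p, hp, Or.inl rfl⟩
    · obtain ⟨d, hd, h⟩ := hD.1 p hp
      exact ⟨d, hd, Or.inr h.symm⟩
  choose f hf hf' using h7
  have hinj : Set.InjOn f (P : Set V) := by
    intro p hp q hq hpq
    refine hpack (f p) p hp q hq (hf' p) ?_
    rw [hpq]
    exact hf' q
  have himg : f '' (P : Set V) = D := by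
    apply Set.eq_of_subset_of_ncard_le
    · rintro _ ⟨p, -, rfl⟩
      exact hf p
    · rw [hinj.ncard_image, Set.ncard_coe_finset, hcard]
    · exact Set.toFinite _
  refine ⟨D, P, hD.1, hout, hpack, ?_, ?_⟩
  · have key : ∀ p ∈ (P : Set V), ∀ d ∈ D, (d = p ∨ G.Adj p d) → d = f p := by
      intro p hp d hd h8
      rw [← himg] at hd
      obtain ⟨p₁, hp₁, rfl⟩ := hd
      have : p = p₁ := by
        refine hpack (f p₁) p hp p₁ hp₁ ?_ (hf' p₁)
        rcases h8 with h8 | h8
        · exact Or.inl h8.symm
        · exact Or.inr h8.symm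
      rw [this]
    intro p hp d hd e he h8 h9
    exact (key p hp d hd h8).trans (key p hp e he h9).symm
  · intro d hd
    rw [← himg] at hd
    obtain ⟨p, hp, rfl⟩ := hd
    exact ⟨p, hp, hf' p⟩

theorem fam_iff [Finite V] (D P : Set V) : Fam V G D P ↔ (G.IsTree ∧ Valid G D P) := by
  constructor
  · intro h
    obtain ⟨-, r, par, dep, hR⟩ := h.rooted
    exact ⟨hR.isTree, h.valid⟩
  · rintro ⟨hG, hv⟩
    obtain ⟨r⟩ := hG.connected.nonempty
    obtain ⟨par, dep, hR⟩ := exists_rooted hG r
    exact fam_of_valid _ V G D P le_rfl ⟨r, par, dep, hR⟩ hv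

theorem one_vertex (h : Nat.card V = 1) : G.IsTree ∧ certNum G = domNum G := by
  classical
  have hfin : Finite V := Nat.finite_of_card_ne_zero (by omega)
  obtain ⟨hs, ⟨v⟩⟩ := Nat.card_eq_one_iff_unique.1 h
  have hne : Nonempty V := ⟨v⟩
  refine ⟨IsTree.of_subsingleton, ?_⟩
  obtain ⟨D, hD, hc⟩ := exists_dom G
  have h1 : D.Nonempty := by
    by_contra hne
    rw [Set.not_nonempty_iff_eq_empty] at hne
    obtain ⟨u, hu, -⟩ := hD v (by rw [hne]; simp)
    rw [hne] at hu
    exact hu
  have h2 : 0 < D.ncard := (Set.ncard_pos (Set.toFinite _)).2 h1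
  have h3 := certNum_le (certified_univ (G := G))
  rw [Set.ncard_univ, h] at h3
  have h4 := domNum_le_certNum G
  omega

/-- the main theorem -/
theorem main [Finite V] (G : SimpleGraph V) :
    ((G.IsTree ∧ certNum G = domNum G) ↔ (Nat.card V = 1 ∨ ∃ D P : Set V, Fam V G D P)) ∧
    (∀ D P : Set V, Fam V G D P ↔ (G.IsTree ∧ Valid G D P)) ∧
    (∀ D P : Set V, Fam V G D P → Certified G D ∧ D.ncard = domNum G ∧ P.ncard = domNum G) := by
  refine ⟨⟨?_, ?_⟩, fam_iff, ?_⟩
  · rintro ⟨hG, heq⟩
    by_cases hc : Nat.card V = 1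
    · exact Or.inl hc
    · obtain ⟨D, P, h⟩ := exists_valid hG hc heq
      exact Or.inr ⟨D, P, (fam_iff D P).2 ⟨hG, h⟩⟩
  · rintro (h | ⟨D, P, h⟩)
    · exact one_vertex h
    · exact ⟨((fam_iff D P).1 h).1, h.valid.eq⟩
  · intro D P h
    exact h.valid.card

end Pool.Agent.K1H16.CD
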