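import Pool.Agent.K1H16.CD.Ext

set_option autoImplicit false

namespace Pool.Agent.K1H16.CD

open SimpleGraph

variable {V : Type} {G : SimpleGraph V}

/-- restriction of a rooted structure to the complement of a down-closed set -/
theorem Rooted.restrict {r : V} {par : V → V} {dep : V → ℕ} (h : Rooted G r par dep) {S : Set V}
    (hr : r ∉ S) (hpar : ∀ v, v ≠ r → par v ∈ S → v ∈ S) :
    ∃ r' par' dep', Rooted (G.induce Sᶜ) r' par' dep' := by
  classical
  refine ⟨⟨r, hr⟩, fun v => if hv : v.1 = r then ⟨r, hr⟩ else
    ⟨par v.1, fun hs => v.2 (hpar v.1 hv hs)⟩, fun v => dep v.1, ?_, ?_⟩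
  · rintro ⟨v, hv⟩ hvr
    have hvr' : v ≠ r := fun h => hvr (Subtype.ext h)
    simp only [dif_neg hvr']
    exact h.up v hvr'
  · rintro ⟨u, hu⟩ ⟨v, hv⟩ huv
    rcases h.edge u v huv with h1 | h1
    · left
      refine ⟨fun h2 => h1.1 (congrArg Subtype.val h2), ?_⟩
      simp only [dif_neg h1.1]
      exact Subtype.ext h1.2
    · right
      refine ⟨fun h2 => h1.1 (congrArg Subtype.val h2), ?_⟩
      simp only [dif_neg h1.1]
      exact Subtype.ext h1.2

/-- restriction of valid labels to the complement of an attached star -/
theorem Valid.restrict {D P S : Set V} {d x y : V} (h : Valid G D P)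
    (hS : StarAttached G S d x y) (hD : D ∩ S = {d})
    (hdom : y ∉ D → ∃ u ∈ D, u ∉ S ∧ G.Adj y u)
    (hxy : y ∈ D → x ∈ D)
    (hmark : y ∈ D → x ∉ P) :
    Valid (G.induce Sᶜ) (Subtype.val ⁻¹' D) (Subtype.val ⁻¹' P) := by
  have cross : ∀ a, a ∉ S → ∀ b ∈ S, G.Adj a b → b = x ∧ a = y := by
    intro a ha b hb hab
    exact (hS.cross b hb a ha).1 hab.symm
  refine ⟨?_, ?_, ?_, ?_, ?_⟩
  · rintro ⟨v, hvS⟩ hv
    obtain ⟨u, hu, huv⟩ := h.dom v hv
    by_cases huS : u ∈ S
    · obtain ⟨rfl, rfl⟩ := cross v hvS u huS huv
      obtain ⟨w, hw, hwS, hwv⟩ := hdom hv
      exact ⟨⟨w, hwS⟩, hw, hwv⟩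
    · exact ⟨⟨u, huS⟩, hu, huv⟩
  · rintro ⟨e, heS⟩ he
    obtain ⟨a, b, hab, ha, hb, h3, h4⟩ := h.out e he
    have key : ∀ a, a ∉ D → G.Adj e a → a ∉ S := by
      intro a ha hea haS
      obtain ⟨rfl, rfl⟩ := cross e heS a haS hea
      exact ha (hxy he)
    exact ⟨⟨a, key a ha h3⟩, ⟨b, key b hb h4⟩, fun h => hab (congrArg Subtype.val h), ha, hb, h3, h4⟩
  · rintro ⟨v, hvS⟩ ⟨p, hpS⟩ hp ⟨q, hqS⟩ hq h3 h4
    refine Subtype.ext (h.pack v p hp q hq ?_ ?_)
    · rcases h3 with h3 | h3
      · exact Or.inl (congrArg Subtype.val h3)
      · exact Or.inr h3
    · rcases h4 with h4 | h4
      · exact Or.inl (congrArg Subtype.val h4)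
      · exact Or.inr h4
  · rintro ⟨p, hpS⟩ hp ⟨e, heS⟩ he ⟨f, hfS⟩ hf h3 h4
    refine Subtype.ext (h.priv p hp e he f hf ?_ ?_)
    · rcases h3 with h3 | h3
      · exact Or.inl (congrArg Subtype.val h3)
      · exact Or.inr h3
    · rcases h4 with h4 | h4
      · exact Or.inl (congrArg Subtype.val h4)
      · exact Or.inr h4
  · rintro ⟨e, heS⟩ he
    obtain ⟨p, hp, h3⟩ := h.mark e he
    have hpS : p ∉ S := by
      intro hpS
      rcases h3 with h3 | h3
      · subst h3; exact heS hpS
      · obtain ⟨rfl, rfl⟩ := cross e heS p hpS h3
        exact hmark he hp
    refine ⟨⟨p, hpS⟩, hp, ?_⟩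
    rcases h3 with h3 | h3
    · exact Or.inl (Subtype.ext h3)
    · exact Or.inr h3

theorem card_compl_lt [Finite V] {S : Set V} {d : V} (hd : d ∈ S) : Nat.card ↥Sᶜ < Nat.card V := by
  rw [Nat.card_coe_set_eq, ← Set.ncard_univ]
  apply Set.ncard_lt_ncard _ (Set.toFinite _)
  exact ⟨Set.subset_univ _, fun h => h (Set.mem_univ d) hd⟩

/-- Valid labels of a rooted finite graph: it belongs to the family. -/
theorem fam_of_valid : ∀ n, ∀ (V : Type) [Finite V] (G : SimpleGraph V) (D P : Set V),
    Nat.card V ≤ n → (∃ r par dep, Rooted G r par dep) → Valid G D P → Fam V G D P := by
  intro n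
  induction n with
  | zero =>
    intro V _ G D P hn ⟨r, _⟩ _
    have : Nonempty V := ⟨r⟩
    have := Nat.card_pos (α := V)
    omega
  | succ n ih =>
    classical
    intro V _ G D P hn ⟨r, par, dep, hR⟩ hv
    -- a deepest black vertex
    have hne : D.Nonempty := by
      by_contra hc
      rw [Set.not_nonempty_iff_eq_empty] at hc
      obtain ⟨u, hu, -⟩ := hv.dom r (by rw [hc]; simp)
      rw [hc] at hu
      exact hu
    obtain ⟨d, hdD, hmax⟩ := Set.exists_max_image D dep (Set.toFinite _) hne
    obtain ⟨a₁, a₂, ha12, ha1D, ha2D, ha1, ha2⟩ := hv.out d hdD
    obtain ⟨p, hpP, hpd⟩ := hv.mark d hdD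
    -- children of `d` are white leaves
    have child_white : ∀ c, c ≠ r → par c = d → c ∉ D := by
      intro c hc hcd hcD
      have h1 := (hR.up c hc).2
      rw [hcd] at h1
      have := hmax c hcD
      omega
    have deep : ∀ z, dep d < dep z → z ≠ r → par z ∉ D → False := by
      intro z hz hzr hpz
      have hzD : z ∉ D := fun h => by have := hmax z h; omega
      obtain ⟨u, hu, hzu⟩ := hv.dom z hzD
      rcases hR.edge z u hzu with h1 | h1
      · rw [h1.2] at hpz
        exact hpz hu
      · have h2 := (hR.up u h1.1).2
        rw [h1.2] at h2
        have := hmax u hu
        omega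
    have child_leaf : ∀ c, c ≠ r → par c = d → ∀ u, G.Adj c u → u = d := by
      intro c hc hcd u hcu
      rcases hR.edge c u hcu with h1 | h1
      · exact h1.2.symm.trans hcd
      · exfalso
        have h2 := (hR.up u h1.1).2
        have h3 := (hR.up c hc).2
        rw [h1.2] at h2
        rw [hcd] at h3
        refine deep u (by omega) h1.1 ?_
        rw [h1.2]
        exact child_white c hc hcd
    have no_grandchild : ∀ v, v ≠ r → par v ≠ r → par (par v) = d → False := by
      intro v hvr hpr hpp
      have h1 := child_leaf (par v) hpr hpp v (hR.up v hvr).1.symm
      have h2 := (hR.up v hvr).2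
      have h3 := (hR.up (par v) hpr).2
      rw [hpp] at h3
      rw [h1] at h2 h3
      omega
    by_cases hrd : r = d
    · -- the whole graph is a star
      subst hrd
      have hall : ∀ k, ∀ v, dep v ≤ k → v ≠ r → par v = r := by
        intro k
        induction k with
        | zero =>
          intro v hk hvr
          have := (hR.up v hvr).2
          omega
        | succ k ihk =>
          intro v hk hvr
          by_contra hpr
          have h1 := (hR.up v hvr).2
          exact no_grandchild v hvr hpr (ihk (par v) (by omega) hpr)
      have hall' : ∀ v, v ≠ r → par v = r := fun v hvr => hall _ v le_rfl hvr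
      have hstar : IsStar G r := by
        intro a b
        constructor
        · intro hab
          rcases hR.edge a b hab with h1 | h1
          · have h2 := hall' a h1.1
            right
            exact ⟨h1.2.symm.trans h2, h1.1⟩
          · have h2 := hall' b h1.1
            left
            exact ⟨h1.2.symm.trans h2, h1.1⟩
        · rintro (⟨rfl, hb⟩ | ⟨rfl, ha⟩)
          · have := (hR.up b hb).1
            rw [hall' b hb] at this
            exact this.symm
          · have := (hR.up a ha).1
            rwa [hall' a ha] at this
      have hD : D = {r} := by
        apply Set.Subset.antisymm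
        · intro v hvD
          by_contra hvr
          exact child_white v hvr (hall' v hvr) hvD
        · rintro v rfl
          exact hdD
      have hP : P = {p} := by
        apply Set.Subset.antisymm
        · intro q hq
          have hadj : q = r ∨ G.Adj r q := by
            by_cases hqr : q = r
            · exact Or.inl hqr
            · exact Or.inr ((hstar r q).2 (Or.inl ⟨rfl, hqr⟩))
          exact hv.pack r q hq p hpP hadj hpd
        · rintro q rfl
          exact hpP
      have hcard : 3 ≤ Nat.card V := by
        have h3 : ({r, a₁, a₂} : Set V).ncard = 3 := by
          rw [Set.ncard_eq_three]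
          refine ⟨r, a₁, a₂, ha1.ne, ha2.ne, ha12, rfl⟩
        rw [← h3, ← Set.ncard_univ]
        exact Set.ncard_le_ncard (Set.subset_univ _) (Set.toFinite _)
      rw [hD, hP]
      exact Fam.star G r p hstar hcard
    · have hdr : d ≠ r := fun h => hrd h.symm
      obtain ⟨hdy, hdepy⟩ := hR.up d hdr
      set y := par d with hy
      -- the star at `d`
      set S₀ : Set V := {v | v = d ∨ (v ≠ r ∧ par v = d)} with hS₀
      have hyd : y ≠ d := hdy.ne'
      have hyS₀ : y ∉ S₀ := by
        rintro (h | ⟨h1, h2⟩)
        · exact hyd h
        · have h3 := (hR.up y h1).2
          rw [h2] at h3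
          omega
      have hrS₀ : r ∉ S₀ := by
        rintro (h | ⟨h1, -⟩)
        · exact hrd h
        · exact h1 rfl
      have nbr_d : ∀ b, G.Adj d b → b = y ∨ b ∈ S₀ := by
        intro b hb
        rcases hR.edge d b hb with h1 | h1
        · exact Or.inl h1.2.symm
        · exact Or.inr (Or.inr h1)
      have inside₀ : ∀ a ∈ S₀, ∀ b ∈ S₀, (G.Adj a b ↔ (a = d ∧ b ≠ d) ∨ (b = d ∧ a ≠ d)) := by
        intro a ha b hb
        constructor
        · intro hab
          rcases ha with rfl | ⟨ha1, ha2⟩
          · exact Or.inl ⟨rfl, hab.ne'⟩
          · have := child_leaf a ha1 ha2 b hab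
            exact Or.inr ⟨this, fun h => hab.ne (h.trans this.symm)⟩
        · rintro (⟨rfl, hbd⟩ | ⟨rfl, had⟩)
          · rcases hb with hb | ⟨hb1, hb2⟩
            · exact (hbd hb).elim
            · have := (hR.up b hb1).1
              rw [hb2] at this
              exact this.symm
          · rcases ha with ha | ⟨ha1, ha2⟩
            · exact (had ha).elim
            · have := (hR.up a ha1).1
              rwa [ha2] at this
      have hDS₀ : D ∩ S₀ = {d} := by
        apply Set.Subset.antisymm
        · rintro v ⟨hvD, hvS | ⟨h1, h2⟩⟩
          · exact hvS
          · exact (child_white v h1 h2 hvD).elim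
        · rintro v rfl
          exact ⟨hdD, Or.inl rfl⟩
      by_cases hcase : y ∈ D ∨ ∃ u ∈ D, u ≠ d ∧ G.Adj y u
      · -- attach through the centre
        have hatt : StarAttached G S₀ d d y := by
          refine ⟨Or.inl rfl, Or.inl rfl, hyS₀, inside₀, ?_⟩
          intro a ha b hb
          constructor
          · intro hab
            rcases ha with rfl | ⟨ha1, ha2⟩
            · rcases nbr_d b hab with h | h
              · exact ⟨rfl, h⟩
              · exact (hb h).elim
            · have := child_leaf a ha1 ha2 b hab
              subst this
              exact (hb (Or.inl rfl)).elim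
          · rintro ⟨rfl, rfl⟩
            exact hdy
        have hyP : y ∉ P := by
          intro hyP
          rcases hcase with h1 | ⟨u, hu, hud, hyu⟩
          · exact hyd (hv.priv y hyP y h1 d hdD (Or.inl rfl) (Or.inr hdy.symm))
          · exact hud (hv.priv y hyP u hu d hdD (Or.inr hyu) (Or.inr hdy.symm))
        have hpS : p ∈ S₀ := by
          rcases hpd with h | h
          · exact Or.inl h
          · rcases nbr_d p h with h1 | h1
            · rw [h1] at hpP
              exact (hyP hpP).elim
            · exact h1
        have hPS : P ∩ S₀ = {p} := by
          apply Set.Subset.antisymm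
          · rintro q ⟨hqP, hqS⟩
            refine hv.pack d q hqP p hpP ?_ hpd
            rcases hqS with h | ⟨h1, h2⟩
            · exact Or.inl h
            · have := (hR.up q h1).1
              rw [h2] at this
              exact Or.inr this.symm
          · rintro q rfl
            exact ⟨hpP, hpS⟩
        have hres : Fam ↥S₀ᶜ (G.induce S₀ᶜ) (Subtype.val ⁻¹' D) (Subtype.val ⁻¹' P) := by
          refine ih _ _ _ _ ?_ ?_ ?_
          · have := card_compl_lt (S := S₀) (d := d) (Or.inl rfl)
            omega
          · refine hR.restrict hrS₀ ?_
            rintro v hvr (h | ⟨h1, h2⟩)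
            · exact Or.inr ⟨hvr, h⟩
            · exact (no_grandchild v hvr h1 h2).elim
          · refine hv.restrict hatt hDS₀ ?_ (fun _ => hdD) ?_
            · intro hyD
              rcases hcase with h1 | ⟨u, hu, hud, hyu⟩
              · exact (hyD h1).elim
              · refine ⟨u, hu, ?_, hyu⟩
                intro huS
                exact hud (mem_of_inter hDS₀ hu huS)
            · intro hyD hdP
              exact hyd (hv.priv d hdP y hyD d hdD (Or.inr hdy) (Or.inl rfl))
        by_cases hyD : y ∈ D
        · refine Fam.op1 G D P S₀ d p y hres hatt ?_ hDS₀ hPS hyD hyP ?_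
          · have hsub : ({d, a₁, a₂} : Set V) ⊆ S₀ := by
              rintro v (rfl | rfl | rfl)
              · exact Or.inl rfl
              · rcases nbr_d v ha1 with h | h
                · rw [h] at ha1D; exact (ha1D hyD).elim
                · exact h
              · rcases nbr_d v ha2 with h | h
                · rw [h] at ha2D; exact (ha2D hyD).elim
                · exact h
            have h3 : ({d, a₁, a₂} : Set V).ncard = 3 := by
              rw [Set.ncard_eq_three]
              exact ⟨d, a₁, a₂, ha1.ne, ha2.ne, ha12, rfl⟩
            rw [← h3]
            exact Set.ncard_le_ncard hsub (Set.toFinite _)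
          · intro hpd'
            rw [hpd'] at hpP
            exact hyd (hv.priv d hpP y hyD d hdD (Or.inr hdy) (Or.inl rfl))
        · refine Fam.op2 G D P S₀ d p y hres hatt ?_ hDS₀ hPS hyD hyP ?_
          · -- one of the two white neighbours is a child
            have : ∃ a, a ∈ S₀ ∧ a ≠ d := by
              by_cases h : a₁ = y
              · refine ⟨a₂, ?_, ha2.ne'⟩
                rcases nbr_d a₂ ha2 with h1 | h1
                · exact (ha12 (h.trans h1.symm)).elim
                · exact h1
              · refine ⟨a₁, ?_, ha1.ne'⟩
                rcases nbr_d a₁ ha1 with h1 | h1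
                · exact (h h1).elim
                · exact h1
            obtain ⟨a, haS, had⟩ := this
            have hsub : ({d, a} : Set V) ⊆ S₀ := by
              rintro v (rfl | rfl)
              · exact Or.inl rfl
              · exact haS
            have h2 : ({d, a} : Set V).ncard = 2 := Set.ncard_pair (fun h => had h.symm)
            rw [← h2]
            exact Set.ncard_le_ncard hsub (Set.toFinite _)
          · by_cases h : p = d
            · right
              intro u huS huy huP
              have := hv.pack y u huP p hpP (Or.inr huy.symm) (Or.inr (by rw [h]; exact hdy.symm))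
              rw [this] at huS
              exact huS hpS
            · exact Or.inl h
      · -- `y` is white and `d` is its only black neighbour
        push Not at hcase
        obtain ⟨hyD, hyN⟩ := hcase
        have y_child : ∀ z, z ≠ r → par z = y → z = d := by
          intro z hzr hzy
          by_contra hzd
          have hadj := (hR.up z hzr).1
          rw [hzy] at hadj
          have hzD : z ∉ D := fun h => hyN z h hzd hadj.symm
          obtain ⟨u, hu, hzu⟩ := hv.dom z hzD
          rcases hR.edge z u hzu with h1 | h1
          · rw [← h1.2, hzy] at hu
            exact hyD hu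
          · have h2 := (hR.up u h1.1).2
            have h3 := (hR.up z hzr).2
            rw [h1.2] at h2
            rw [hzy] at h3
            have := hmax u hu
            omega
        by_cases hyr : y = r
        · -- the whole graph is a star with centre `d`
          have hall : ∀ k, ∀ v, dep v ≤ k → v ≠ r → v = d ∨ par v = d := by
            intro k
            induction k with
            | zero =>
              intro v hk hvr
              have := (hR.up v hvr).2
              omega
            | succ k ihk =>
              intro v hk hvr
              by_cases hpr : par v = r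
              · left
                exact y_child v hvr (hpr.trans hyr.symm)
              · have h1 := (hR.up v hvr).2
                rcases ihk (par v) (by omega) hpr with h2 | h2
                · exact Or.inr h2
                · exact (no_grandchild v hvr hpr h2).elim
          have hall' : ∀ v, v ≠ d → G.Adj d v := by
            intro v hvd
            by_cases hvr : v = r
            · rw [hvr, ← hyr]
              exact hdy
            · rcases hall _ v le_rfl hvr with h | h
              · exact (hvd h).elim
              · have := (hR.up v hvr).1
                rw [h] at this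
                exact this.symm
          have hstar : IsStar G d := by
            intro a b
            constructor
            · intro hab
              by_cases had : a = d
              · exact Or.inl ⟨had, fun h => hab.ne (had.trans h.symm)⟩
              · right
                refine ⟨?_, had⟩
                by_cases har : a = r
                · rcases hR.edge a b hab with h1 | h1
                  · exact (h1.1 har).elim
                  · exact y_child b h1.1 (h1.2.trans (har.trans hyr.symm))
                · rcases hall _ a le_rfl har with h | h
                  · exact (had h).elim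
                  · exact child_leaf a har h b hab
            · rintro (⟨rfl, hb⟩ | ⟨rfl, ha⟩)
              · exact hall' b hb
              · exact (hall' a ha).symm
          have hD : D = {d} := by
            apply Set.Subset.antisymm
            · intro v hvD
              by_contra hvd
              by_cases hvr : v = r
              · rw [hvr, ← hyr] at hvD
                exact hyD hvD
              · rcases hall _ v le_rfl hvr with h | h
                · exact hvd h
                · exact child_white v hvr h hvD
            · rintro v rfl
              exact hdD
          have hP : P = {p} := by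
            apply Set.Subset.antisymm
            · intro q hq
              have hadj : q = d ∨ G.Adj d q := by
                by_cases hqd : q = d
                · exact Or.inl hqd
                · exact Or.inr (hall' q hqd)
              exact hv.pack d q hq p hpP hadj hpd
            · rintro q rfl
              exact hpP
          have hcard : 3 ≤ Nat.card V := by
            have h3 : ({d, a₁, a₂} : Set V).ncard = 3 := by
              rw [Set.ncard_eq_three]
              refine ⟨d, a₁, a₂, ha1.ne, ha2.ne, ha12, rfl⟩
            rw [← h3, ← Set.ncard_univ]
            exact Set.ncard_le_ncard (Set.subset_univ _) (Set.toFinite _)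
          rw [hD, hP]
          exact Fam.star G d p hstar hcard
        · obtain ⟨hyx, hdepx⟩ := hR.up y hyr
          set x₀ := par y with hx₀
          have hx₀d : x₀ ≠ d := by
            intro h
            rw [h] at hdepx
            omega
          have hx₀y : x₀ ≠ y := hyx.ne'
          have hx₀D : x₀ ∉ D := fun h => hyN x₀ h hx₀d hyx
          have hx₀S₀ : x₀ ∉ S₀ := by
            rintro (h | ⟨h1, h2⟩)
            · exact hx₀d h
            · have h3 := (hR.up x₀ h1).2
              rw [h2] at h3
              omega
          have nbr_y : ∀ b, G.Adj y b → b = x₀ ∨ b = d := by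
            intro b hb
            rcases hR.edge y b hb with h1 | h1
            · exact Or.inl h1.2.symm
            · exact Or.inr (y_child b h1.1 h1.2)
          set S : Set V := insert y S₀ with hSdef
          have hx₀S : x₀ ∉ S := by
            rintro (h | h)
            · exact hx₀y h
            · exact hx₀S₀ h
          have hrS : r ∉ S := by
            rintro (h | h)
            · exact hyr h.symm
            · exact hrS₀ h
          have hatt : StarAttached G S d y x₀ := by
            refine ⟨Or.inr (Or.inl rfl), Or.inl rfl, hx₀S, ?_, ?_⟩
            · intro a ha b hb
              rcases ha with rfl | ha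
              · rcases hb with rfl | hb
                · constructor
                  · intro h; exact (h.ne rfl).elim
                  · rintro (⟨h, -⟩ | ⟨h, -⟩) <;> exact (hyd h).elim
                · constructor
                  · intro h
                    rcases nbr_y b h with h1 | h1
                    · rw [h1] at hb; exact (hx₀S₀ hb).elim
                    · exact Or.inr ⟨h1, hyd⟩
                  · rintro (⟨h, -⟩ | ⟨h, -⟩)
                    · exact (hyd h).elim
                    · rw [h]; exact hdy.symm
              · rcases hb with rfl | hb
                · constructor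
                  · intro h
                    rcases nbr_y a h.symm with h1 | h1
                    · rw [h1] at ha; exact (hx₀S₀ ha).elim
                    · exact Or.inl ⟨h1, hyd⟩
                  · rintro (⟨h, -⟩ | ⟨h, -⟩)
                    · rw [h]; exact hdy
                    · exact (hyd h).elim
                · exact inside₀ a ha b hb
            · intro a ha b hb
              have hb0 : b ∉ S₀ := fun h => hb (Or.inr h)
              have hby : b ≠ y := fun h => hb (Or.inl h)
              constructor
              · intro hab
                rcases ha with rfl | ha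
                · rcases nbr_y b hab with h1 | h1
                  · exact ⟨rfl, h1⟩
                  · rw [h1] at hb0; exact (hb0 (Or.inl rfl)).elim
                · exfalso
                  rcases ha with rfl | ⟨ha1, ha2⟩
                  · rcases nbr_d b hab with h | h
                    · exact hby h
                    · exact hb0 h
                  · have := child_leaf a ha1 ha2 b hab
                    rw [this] at hb0
                    exact hb0 (Or.inl rfl)
              · rintro ⟨rfl, rfl⟩
                exact hyx
          have hDS : D ∩ S = {d} := by
            apply Set.Subset.antisymm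
            · rintro v ⟨hvD, rfl | hvS⟩
              · exact (hyD hvD).elim
              · exact mem_of_inter hDS₀ hvD hvS
            · rintro v rfl
              exact ⟨hdD, Or.inr (Or.inl rfl)⟩
          have nbhd : ∀ q, (q = d ∨ G.Adj d q) → q ∈ S := by
            rintro q (h | h)
            · exact Or.inr (Or.inl h)
            · rcases nbr_d q h with h1 | h1
              · exact Or.inl h1
              · exact Or.inr h1
          have nbhd' : ∀ q ∈ S, (q = d ∨ G.Adj d q) := by
            rintro q (rfl | h | ⟨h1, h2⟩)
            · exact Or.inr hdy
            · exact Or.inl h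
            · have := (hR.up q h1).1
              rw [h2] at this
              exact Or.inr this.symm
          have hpS : p ∈ S := nbhd p hpd
          have hPS : P ∩ S = {p} := by
            apply Set.Subset.antisymm
            · rintro q ⟨hqP, hqS⟩
              exact hv.pack d q hqP p hpP (nbhd' q hqS) hpd
            · rintro q rfl
              exact ⟨hpP, hpS⟩
          have hres : Fam ↥Sᶜ (G.induce Sᶜ) (Subtype.val ⁻¹' D) (Subtype.val ⁻¹' P) := by
            refine ih _ _ _ _ ?_ ?_ ?_
            · have := card_compl_lt (S := S) (d := d) (Or.inr (Or.inl rfl))
              omega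
            · refine hR.restrict hrS ?_
              rintro v hvr (h | h | ⟨h1, h2⟩)
              · exact Or.inr (Or.inl (y_child v hvr h))
              · exact Or.inr (Or.inr ⟨hvr, h⟩)
              · exact (no_grandchild v hvr h1 h2).elim
            · refine hv.restrict hatt hDS ?_ (fun h => (hx₀D h).elim) (fun h => (hx₀D h).elim)
              intro _
              obtain ⟨u, hu, hxu⟩ := hv.dom x₀ hx₀D
              refine ⟨u, hu, ?_, hxu⟩
              intro huS
              have hud := mem_of_inter hDS hu huS
              have := (hatt.cross u huS x₀ hx₀S).1 hxu.symm
              exact hyd (this.1.symm.trans hud)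
          refine Fam.op3 G D P S d p y x₀ hres hatt hyd ?_ hDS hPS hx₀D ?_
          · have hsub : ({d, a₁, a₂} : Set V) ⊆ S := by
              rintro v (rfl | rfl | rfl)
              · exact Or.inr (Or.inl rfl)
              · exact nbhd _ (Or.inr ha1)
              · exact nbhd _ (Or.inr ha2)
            have h3 : ({d, a₁, a₂} : Set V).ncard = 3 := by
              rw [Set.ncard_eq_three]
              exact ⟨d, a₁, a₂, ha1.ne, ha2.ne, ha12, rfl⟩
            rw [← h3]
            exact Set.ncard_le_ncard hsub (Set.toFinite _)
          · by_cases hpd' : p = d
            · right; left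
              refine ⟨hpd', fun hxP => ?_⟩
              have := hv.pack y x₀ hxP p hpP (Or.inr hyx) (Or.inr (by rw [hpd']; exact hdy.symm))
              rw [this] at hx₀S
              exact hx₀S hpS
            · by_cases hpy : p = y
              · right; right
                refine ⟨hpy, fun hxP => ?_, fun u huS hux huP => ?_⟩
                · have := hv.pack x₀ x₀ hxP p hpP (Or.inl rfl) (Or.inr (by rw [hpy]; exact hyx.symm))
                  rw [this] at hx₀S
                  exact hx₀S hpS
                · have := hv.pack x₀ u huP p hpP (Or.inr hux.symm)
                    (Or.inr (by rw [hpy]; exact hyx.symm))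
                  rw [this] at huS
                  exact huS hpS
              · exact Or.inl ⟨hpd', hpy⟩

end Pool.Agent.K1H16.CD
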