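import Pool.Agent.K1H16.CD.Defs

set_option autoImplicit false

namespace Pool.Agent.K1H16.CD

open SimpleGraph

/-- A tree has a rooted structure with any root. -/
theorem exists_rooted {V : Type} {G : SimpleGraph V} (hG : G.IsTree) (r : V) :
    ∃ par dep, Rooted G r par dep := by
  classical
  choose q hq hq' using fun v => hG.existsUnique_path r v
  refine ⟨fun v => (q v).penultimate, fun v => (q v).length, ?_, ?_⟩
  · intro v hv
    have hnil : ¬ (q v).Nil := by
      intro h
      exact hv h.eq.symm
    refine ⟨((q v).adj_penultimate hnil).symm, ?_⟩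
    have h1 : (q v).dropLast.IsPath := by
      exact (hq v).dropLast
    have h2 := hq' _ _ h1
    change (q v).length = (q ((q v).penultimate)).length + 1
    rw [← h2, Walk.length_dropLast_add_one hnil]
  · intro u v huv
    by_cases hv : v ∈ (q u).support
    · left
      have h1 := hG.isAcyclic.eq_penultimate_of_adj_end (hq u) huv hv
      refine ⟨?_, h1.symm⟩
      rintro rfl
      have h3 : q u = Walk.nil := (hq' u Walk.nil Walk.IsPath.nil).symm
      rw [h3] at hv
      simp at hv
      exact huv.ne hv.symm
    · right
      have h1 : ((q u).concat huv).IsPath := (hq u).concat hv huv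
      have h2 := hq' v _ h1
      refine ⟨?_, ?_⟩
      · rintro rfl
        exact hv (Walk.start_mem_support _)
      · rw [← h2]
        simp

theorem Rooted.dep_lt {V : Type} {G : SimpleGraph V} {r : V} {par : V → V} {dep : V → ℕ}
    (h : Rooted G r par dep) {v : V} (hv : v ≠ r) : dep (par v) < dep v := by
  have := (h.up v hv).2
  omega

/-- A rooted graph is connected. -/
theorem Rooted.connected {V : Type} {G : SimpleGraph V} {r : V} {par : V → V} {dep : V → ℕ}
    (h : Rooted G r par dep) : G.Connected := by
  have key : ∀ n, ∀ v, dep v ≤ n → G.Reachable v r := by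
    intro n
    induction n with
    | zero =>
      intro v hv
      by_cases hvr : v = r
      · subst hvr
        exact Reachable.refl _
      · have := h.dep_lt hvr
        omega
    | succ n ih =>
      intro v hv
      by_cases hvr : v = r
      · subst hvr
        exact Reachable.refl _
      · have h1 := h.dep_lt hvr
        exact ((h.up v hvr).1.reachable).trans (ih _ (by omega))
  have : Nonempty V := ⟨r⟩
  refine ⟨fun u v => ?_⟩
  exact (key _ u le_rfl).trans (key _ v le_rfl).symm

/-- A finite rooted graph is a tree. -/
theorem Rooted.isTree {V : Type} [Finite V] {G : SimpleGraph V} {r : V} {par : V → V}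
    {dep : V → ℕ} (h : Rooted G r par dep) : G.IsTree := by
  classical
  rw [isTree_iff_connected_and_card]
  refine ⟨h.connected, ?_⟩
  have e : Nat.card {v : V // v ≠ r} = Nat.card G.edgeSet := by
    refine Nat.card_congr (Equiv.ofBijective
      (fun v : {v : V // v ≠ r} => (⟨s(v.1, par v.1), (h.up v.1 v.2).1⟩ : G.edgeSet)) ⟨?_, ?_⟩)
    · rintro ⟨v, hv⟩ ⟨w, hw⟩ hvw
      simp only [Subtype.mk.injEq, Sym2.eq_iff] at hvw ⊢
      rcases hvw with h1 | h1
      · exact h1.1
      · exfalso
        have h2 := h.dep_lt hv
        have h3 := h.dep_lt hw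
        rw [h1.2] at h2
        rw [← h1.1] at h3
        omega
    · rintro ⟨e, he⟩
      induction e using Sym2.ind with
      | _ a b =>
        rcases h.edge a b he with h1 | h1
        · exact ⟨⟨a, h1.1⟩, by simp [h1.2]⟩
        · refine ⟨⟨b, h1.1⟩, ?_⟩
          simp only [Subtype.mk.injEq, h1.2]
          exact Sym2.eq_swap
  rw [← e]
  have h2 : Nat.card V = Nat.card {v : V // v = r} + Nat.card {v : V // v ≠ r} := by
    rw [← Nat.card_sum]
    exact Nat.card_congr (Equiv.sumCompl (fun v => v = r)).symm
  rw [h2]
  simp
  omega

end Pool.Agent.K1H16.CD
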